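import Pool.Agent.Helper63.XP.StB

/-!
# Project XP (MP_c973ff_an), module XSC: a scalar inequality
-/

set_option autoImplicit false

namespace Pool.Agent.Helper96.XP

open Finset
open Pool.Agent.Helper63.XP

/-- at most one of the numbers `c (m - a)`, `a < N`, is nonzero -/
theorem one_nonzero {N : ℕ} {c : ℤ → ℂ}
    (hc : ∀ (j : ℤ) (i : ℕ), 0 < i → i < N → c j * c (j + i) = 0) (m : ℤ) (a b : Fin N)
    (hab : a ≠ b) (ha : c (m - (a : ℕ)) ≠ 0) : c (m - (b : ℕ)) = 0 := by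
  have hne : (a : ℕ) ≠ b := fun h => hab (Fin.ext h)
  rcases lt_or_gt_of_ne hne with h | h
  · have h1 := hc (m - (b : ℕ)) ((b : ℕ) - a) (Nat.sub_pos_of_lt h)
      (lt_of_le_of_lt (Nat.sub_le _ _) b.2)
    have h2 : m - ((b : ℕ) : ℤ) + (((b : ℕ) - (a : ℕ) : ℕ) : ℤ) = m - (a : ℕ) := by
      rw [Nat.cast_sub h.le]
      ring
    rw [h2] at h1
    exact (mul_eq_zero.1 h1).resolve_right ha
  · have h1 := hc (m - (a : ℕ)) ((a : ℕ) - b) (Nat.sub_pos_of_lt h)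
      (lt_of_le_of_lt (Nat.sub_le _ _) a.2)
    have h2 : m - ((a : ℕ) : ℤ) + (((a : ℕ) - (b : ℕ) : ℕ) : ℤ) = m - (b : ℕ) := by
      rw [Nat.cast_sub h.le]
      ring
    rw [h2] at h1
    exact (mul_eq_zero.1 h1).resolve_left ha

theorem norm_sum_eq {N : ℕ} {c : ℤ → ℂ}
    (hc : ∀ (j : ℤ) (i : ℕ), 0 < i → i < N → c j * c (j + i) = 0) (p : ℝ) (hp : 1 ≤ p) (m : ℤ)
    (w : Fin N → ℂ) : ‖∑ a : Fin N, c (m - (a : ℕ)) * w a‖ ^ p =
      ∑ a : Fin N, ‖c (m - (a : ℕ))‖ ^ p * ‖w a‖ ^ p := by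
  have hp0 : p ≠ 0 := by linarith
  by_cases h : ∃ a : Fin N, c (m - (a : ℕ)) ≠ 0
  · obtain ⟨a, ha⟩ := h
    rw [Finset.sum_eq_single a, Finset.sum_eq_single a, norm_mul,
      Real.mul_rpow (norm_nonneg _) (norm_nonneg _)]
    · intro b _ hb
      rw [one_nonzero hc m a b hb.symm ha, norm_zero, Real.zero_rpow hp0, zero_mul]
    · intro h; exact absurd (Finset.mem_univ a) h
    · intro b _ hb
      rw [one_nonzero hc m a b hb.symm ha, zero_mul]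
    · intro h; exact absurd (Finset.mem_univ a) h
  · push Not at h
    rw [Finset.sum_eq_zero fun a _ => by rw [h a, zero_mul], norm_zero, Real.zero_rpow hp0,
      Finset.sum_eq_zero fun a _ => by rw [h a, norm_zero, Real.zero_rpow hp0, zero_mul]]

theorem sum_c_le {N : ℕ} {c : ℤ → ℂ} (hc1 : ∀ j, ‖c j‖ ≤ 1)
    (hc : ∀ (j : ℤ) (i : ℕ), 0 < i → i < N → c j * c (j + i) = 0) (p : ℝ) (hp : 1 ≤ p) (m : ℤ) :
    ∑ a : Fin N, ‖c (m - (a : ℕ))‖ ^ p ≤ 1 := by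
  have h1 := norm_sum_eq hc p hp m (fun _ => 1)
  simp only [norm_one, Real.one_rpow, mul_one] at h1
  rw [← h1]
  refine Real.rpow_le_one (norm_nonneg _) ?_ (by linarith)
  by_cases h : ∃ a : Fin N, c (m - (a : ℕ)) ≠ 0
  · obtain ⟨a, ha⟩ := h
    rw [Finset.sum_eq_single a]
    · exact hc1 _
    · intro b _ hb
      exact one_nonzero hc m a b hb.symm ha
    · intro h; exact absurd (Finset.mem_univ a) h
  · push Not at h
    rw [Finset.sum_eq_zero fun a _ => h a, norm_zero]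
    exact zero_le_one

theorem summable_u (p : ℝ) (hp : 1 ≤ p) (u : ℤ →₀ ℂ) (g : ℤ → ℝ) (s : ℤ) :
    Summable fun m : ℤ => g m * ‖u (m + s)‖ ^ p := by
  have hp0 : p ≠ 0 := by linarith
  have h1 : {m : ℤ | u (m + s) ≠ 0}.Finite := by
    have h2 : {m : ℤ | u (m + s) ≠ 0} = (fun m : ℤ => m + s) ⁻¹' (u.support : Set ℤ) := by
      ext m
      simp
    rw [h2]
    exact u.support.finite_toSet.preimage fun a _ b _ h => add_right_cancel h
  have hfin : (Function.support fun m : ℤ => g m * ‖u (m + s)‖ ^ p).Finite := by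
    refine h1.subset fun m hm h => hm ?_
    show g m * ‖u (m + s)‖ ^ p = 0
    rw [h, norm_zero, Real.zero_rpow hp0, mul_zero]
  exact summable_of_hasFiniteSupport hfin

theorem hXSC : StXsc := by
  intro p N x0 r c u hp hr hx hc1 hc
  have hp0 : 0 ≤ p := by linarith
  set w : ℤ → Fin N → ℂ := fun j a => ∑ b : Fin N, x0 a b * u (j + ((b : ℕ) : ℤ)) with hw
  set G : ℤ → Fin N → ℝ := fun j a => ‖c j‖ ^ p * ‖w j a‖ ^ p with hG
  set K : ℤ → Fin N → ℝ := fun j b => ‖c j‖ ^ p * ‖u (j + ((b : ℕ) : ℤ))‖ ^ p with hK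
  have hG0 : ∀ j a, 0 ≤ G j a := fun j a => by simp only [hG]; positivity
  have hK0 : ∀ j a, 0 ≤ K j a := fun j a => by simp only [hK]; positivity
  have hKs : ∀ b, Summable fun j => K j b := fun b => summable_u p hp u (fun j => ‖c j‖ ^ p) _
  have hKS : Summable fun j => ∑ b, K j b := summable_sum fun b _ => hKs b
  have hGK : ∀ j, ∑ a, G j a ≤ r ^ p * ∑ b, K j b := by
    intro j
    have h1 := hx fun b : Fin N => u (j + ((b : ℕ) : ℤ))
    have h2 : ∑ a, ‖w j a‖ ^ p ≤ r ^ p * ∑ b : Fin N, ‖u (j + ((b : ℕ) : ℤ))‖ ^ p := h1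
    simp only [hG, hK]
    rw [← Finset.mul_sum, ← Finset.mul_sum, mul_left_comm]
    exact mul_le_mul_of_nonneg_left h2 (by positivity)
  have hGs : ∀ a, Summable fun j => G j a := fun a =>
    Summable.of_nonneg_of_le (fun j => hG0 j a)
      (fun j => (Finset.single_le_sum (fun a' _ => hG0 j a') (Finset.mem_univ a)).trans (hGK j))
      (hKS.mul_left _)
  have hGs' : ∀ a : Fin N, Summable fun m : ℤ => G (m - ((a : ℕ) : ℤ)) a := fun a =>
    ((Equiv.subRight ((a : ℕ) : ℤ)).summable_iff (f := fun j => G j a)).2 (hGs a)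
  have hKs' : ∀ a : Fin N, Summable fun m : ℤ => K (m - ((a : ℕ) : ℤ)) a := fun a =>
    ((Equiv.subRight ((a : ℕ) : ℤ)).summable_iff (f := fun j => K j a)).2 (hKs a)
  have e1 : ∀ m : ℤ, ‖∑ a : Fin N, c (m - ((a : ℕ) : ℤ)) * ∑ b : Fin N,
      x0 a b * u (m - ((a : ℕ) : ℤ) + ((b : ℕ) : ℤ))‖ ^ p = ∑ a : Fin N, G (m - ((a : ℕ) : ℤ)) a :=
    fun m => norm_sum_eq hc p hp m fun a => w (m - ((a : ℕ) : ℤ)) a
  have hu : Summable fun m : ℤ => ‖u m‖ ^ p := by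
    have := summable_u p hp u (fun _ => 1) 0
    simpa only [one_mul, add_zero] using this
  have hpt : ∀ m : ℤ, ∑ b : Fin N, K (m - ((b : ℕ) : ℤ)) b ≤ ‖u m‖ ^ p := by
    intro m
    have h1 : ∑ b : Fin N, K (m - ((b : ℕ) : ℤ)) b =
        (∑ b : Fin N, ‖c (m - ((b : ℕ) : ℤ))‖ ^ p) * ‖u m‖ ^ p := by
      rw [Finset.sum_mul]
      refine Finset.sum_congr rfl fun b _ => ?_
      simp only [hK]
      rw [sub_add_cancel]
    rw [h1]
    exact mul_le_of_le_one_left (Real.rpow_nonneg (norm_nonneg _) p) (sum_c_le hc1 hc p hp m)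
  have hS : Summable fun m : ℤ => ∑ b : Fin N, K (m - ((b : ℕ) : ℤ)) b :=
    summable_sum fun b _ => hKs' b
  have hlast : ∑' m : ℤ, ∑ b : Fin N, K (m - ((b : ℕ) : ℤ)) b ≤ ∑' m : ℤ, ‖u m‖ ^ p :=
    Summable.tsum_le_tsum hpt hS hu
  calc ∑' m : ℤ, ‖∑ a : Fin N, c (m - ((a : ℕ) : ℤ)) * ∑ b : Fin N,
        x0 a b * u (m - ((a : ℕ) : ℤ) + ((b : ℕ) : ℤ))‖ ^ p
      = ∑' m : ℤ, ∑ a : Fin N, G (m - ((a : ℕ) : ℤ)) a := tsum_congr e1
    _ = ∑ a : Fin N, ∑' m : ℤ, G (m - ((a : ℕ) : ℤ)) a := Summable.tsum_finsetSum fun a _ => hGs' a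
    _ = ∑ a, ∑' j : ℤ, G j a := Finset.sum_congr rfl fun a _ =>
        (Equiv.subRight ((a : ℕ) : ℤ)).tsum_eq fun j => G j a
    _ = ∑' j : ℤ, ∑ a, G j a := (Summable.tsum_finsetSum fun a _ => hGs a).symm
    _ ≤ ∑' j : ℤ, r ^ p * ∑ b, K j b :=
        Summable.tsum_le_tsum hGK (summable_sum fun a _ => hGs a) (hKS.mul_left _)
    _ = r ^ p * ∑ b, ∑' j : ℤ, K j b := by
        rw [tsum_mul_left, Summable.tsum_finsetSum fun b _ => hKs b]
    _ = r ^ p * ∑ b : Fin N, ∑' m : ℤ, K (m - ((b : ℕ) : ℤ)) b := by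
        congr 1
        exact Finset.sum_congr rfl fun b _ =>
          ((Equiv.subRight ((b : ℕ) : ℤ)).tsum_eq fun j => K j b).symm
    _ = r ^ p * ∑' m : ℤ, ∑ b : Fin N, K (m - ((b : ℕ) : ℤ)) b := by
        rw [Summable.tsum_finsetSum fun b _ => hKs' b]
    _ ≤ r ^ p * ∑' m : ℤ, ‖u m‖ ^ p :=
        mul_le_mul_of_nonneg_left hlast (Real.rpow_nonneg hr p)

end Pool.Agent.Helper96.XP
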